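import Pool.Agent.H41.GM.Stm

/-! # Project GM: assembly -/

set_option autoImplicit false

namespace Pool.Agent.H41.GM

open MeasureTheory Filter Topology ProbabilityTheory

theorem gaps_law (hdet : S_DET) (hupp : S_UPP) (hlow : S_LOW)
    (Ω : Type) [mΩ : MeasurableSpace Ω] (P : Measure Ω) [IsProbabilityMeasure P]
    (ℱ : Filtration ℕ mΩ) (q : ℕ → Ω → ℕ) (T : ℝ → ℝ) (hT : Antitone T) (hT0 : ∀ t, 0 ≤ T t)
    (hG : Gaps P ℱ q T) :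
    (Summable (fun j : ℕ => T (aa j)) → ∀ᵐ ω ∂P, Golubew fun j => q j ω) ∧
    (¬ Summable (fun j : ℕ => T (aa j)) → ∀ᵐ ω ∂P, Empties fun j => q j ω) := by
  constructor
  · intro hs
    filter_upwards [hupp Ω P ℱ q T hT hT0 hG hs] with ω hω
    exact (hdet _ (hG.strict ω)).1 hω
  · intro hs
    filter_upwards [hlow Ω P ℱ q T hT hT0 hG hs] with ω hω
    exact (hdet _ (hG.strict ω)).2 hω

theorem renewal_law (hdet : S_DET) (hupp : S_UPP) (hlow : S_LOW) (hmom : S_MOM) (hren : S_REN)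
    (Ω : Type) [mΩ : MeasurableSpace Ω] (P : Measure Ω) [IsProbabilityMeasure P] (X : ℕ → Ω → ℝ)
    (q : ℕ → Ω → ℕ) (hm : ∀ i, Measurable (X i)) (h0 : ∀ i ω, 0 ≤ X i ω) (hi : iIndepFun X P)
    (hid : ∀ i, IdentDistrib (X i) (X 0) P P) (hint : Integrable (X 0) P)
    (hpos : 0 < ∫ ω, X 0 ω ∂P) (hq0 : ∃ m₀ : ℕ, ∀ ω, q 0 ω = m₀)
    (hq : ∀ j ω, q (j + 1) ω = q j ω + 1 + ⌊X j ω * sc (q j ω)⌋₊) :
    (∃ ℱ : Filtration ℕ mΩ, Gaps P ℱ q (fun t => P.real {ω | t ≤ X 0 ω})) ∧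
    (Integrable (fun ω => X 0 ω ^ (5 / 4 : ℝ) * Real.log (2 + X 0 ω)) P →
      ∀ᵐ ω ∂P, Golubew fun j => q j ω) ∧
    (¬ Integrable (fun ω => X 0 ω ^ (5 / 4 : ℝ) * Real.log (2 + X 0 ω)) P →
      ∀ᵐ ω ∂P, Empties fun j => q j ω) := by
  obtain ⟨ℱ, hG⟩ := hren Ω P X q hm h0 hi hid hint hpos hq0 hq
  have hanti : Antitone fun t : ℝ => P.real {ω | t ≤ X 0 ω} := fun a b hab =>
    measureReal_mono (fun ω (hω : b ≤ X 0 ω) => hab.trans hω)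
  have h := gaps_law hdet hupp hlow Ω P ℱ q _ hanti (fun t => measureReal_nonneg) hG
  have hM := hmom Ω P (X 0) (hm 0) (h0 0)
  exact ⟨⟨ℱ, hG⟩, fun hI => h.1 (hM.1 hI), fun hI => h.2 fun hs => hI (hM.2 hs)⟩

end Pool.Agent.H41.GM
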