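import Pool.Agent.H41.GM.Stm

/-! # Project GM, module DET -/

set_option autoImplicit false

namespace Pool.Agent.H41.GM

open Filter

lemma pow_four_fifths (n : ℕ) : ((n : ℝ) ^ 5) ^ (4 / 5 : ℝ) = (n : ℝ) ^ 4 := by
  rw [← Real.rpow_natCast, ← Real.rpow_mul (Nat.cast_nonneg n), ← Real.rpow_natCast]
  norm_num

theorem det : S_DET := by
  intro q hq
  have hqj : ∀ j, j ≤ q j := hq.id_le
  constructor
  · intro h
    obtain ⟨J, hJ⟩ := eventually_atTop.1 h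
    rw [Golubew, eventually_atTop]
    refine ⟨q J + 1, fun n hn => ?_⟩
    have hn1 : 1 ≤ n := by omega
    have hnn : n ≤ n ^ 5 := Nat.le_self_pow (by norm_num) n
    -- the least index with q i > n ^ 5
    have hex : ∃ i, n ^ 5 < q i := ⟨n ^ 5 + 1, lt_of_lt_of_le (Nat.lt_succ_self _) (hqj _)⟩
    classical
    set i := Nat.find hex with hi
    have hi1 : n ^ 5 < q i := Nat.find_spec hex
    have hiJ : J < i := by
      by_contra hcon
      push Not at hcon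
      have := hq.monotone hcon
      omega
    obtain ⟨j, hj⟩ : ∃ j, i = j + 1 := ⟨i - 1, by omega⟩
    have hj1 : q j ≤ n ^ 5 := by
      have := Nat.find_min hex (m := j) (by omega)
      omega
    have hj2 := hJ j (by omega)
    refine ⟨j + 1, by rw [← hj]; exact hi1, ?_⟩
    have h1 : (q j : ℝ) ≤ (n : ℝ) ^ 5 := by exact_mod_cast hj1
    have h2 : (q j : ℝ) ^ (4 / 5 : ℝ) ≤ (n : ℝ) ^ 4 := by
      rw [← pow_four_fifths]
      exact Real.rpow_le_rpow (Nat.cast_nonneg _) h1 (by norm_num)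
    have h3 : (1 : ℝ) ≤ n := by exact_mod_cast hn1
    have h4 : ((q (j + 1) + 8 : ℕ) : ℝ) < (((n + 1) ^ 5 : ℕ) : ℝ) := by
      push_cast
      have e : ((n : ℝ) + 1) ^ 5 = (n : ℝ) ^ 5 + 5 * (n : ℝ) ^ 4 + 10 * (n : ℝ) ^ 3
          + 10 * (n : ℝ) ^ 2 + 5 * n + 1 := by ring
      have a3 : (1 : ℝ) ≤ (n : ℝ) ^ 3 := one_le_pow₀ h3
      have a4 : (1 : ℝ) ≤ (n : ℝ) ^ 4 := one_le_pow₀ h3
      have a2 : (1 : ℝ) ≤ (n : ℝ) ^ 2 := one_le_pow₀ h3
      linarith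
    exact_mod_cast h4
  · intro h
    rw [Empties, frequently_atTop]
    intro N
    obtain ⟨j, hjN, hj⟩ := (frequently_atTop.1 h) (N ^ 5 + 2)
    have hqj2 : N ^ 5 + 2 ≤ q j := hjN.trans (hqj j)
    have hex : ∃ n, q j ≤ n ^ 5 := ⟨q j, Nat.le_self_pow (by norm_num) _⟩
    classical
    obtain ⟨n, hn, hmin⟩ : ∃ n, q j ≤ n ^ 5 ∧ ∀ k < n, k ^ 5 < q j :=
      ⟨Nat.find hex, Nat.find_spec hex, fun k hk => not_le.1 (Nat.find_min hex hk)⟩
    have hnN : N < n := by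
      by_contra hcon
      push Not at hcon
      have := Nat.pow_le_pow_left hcon 5
      omega
    have hn2 : 2 ≤ n := by
      by_contra hcon
      have : n ≤ 1 := by omega
      have := Nat.pow_le_pow_left this 5
      omega
    obtain ⟨k, hk⟩ : ∃ k, n = k + 1 := ⟨n - 1, by omega⟩
    have hk1 : 1 ≤ k := by omega
    have hkq : k ^ 5 < q j := hmin k (by omega)
    refine ⟨n, hnN.le, fun i hi => ?_⟩
    have hij : j < i := by
      by_contra hcon
      push Not at hcon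
      have := hq.monotone hcon
      omega
    have hi2 : q (j + 1) ≤ q i := hq.monotone hij
    have h1 : ((k : ℝ)) ^ 5 ≤ q j := by exact_mod_cast hkq.le
    have h2 : (k : ℝ) ^ 4 ≤ (q j : ℝ) ^ (4 / 5 : ℝ) := by
      rw [← pow_four_fifths]
      exact Real.rpow_le_rpow (by positivity) h1 (by norm_num)
    have h3 : (1 : ℝ) ≤ k := by exact_mod_cast hk1
    have h4 : (((n + 1) ^ 5 : ℕ) : ℝ) ≤ q (j + 1) := by
      rw [hk]
      push_cast
      have e : ((k : ℝ) + 1 + 1) ^ 5 = (k : ℝ) ^ 5 + 10 * (k : ℝ) ^ 4 + 40 * (k : ℝ) ^ 3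
          + 80 * (k : ℝ) ^ 2 + 80 * k + 32 := by ring
      have a3 : (k : ℝ) ^ 3 ≤ (k : ℝ) ^ 4 := pow_le_pow_right₀ h3 (by norm_num)
      have a2 : (k : ℝ) ^ 2 ≤ (k : ℝ) ^ 4 := pow_le_pow_right₀ h3 (by norm_num)
      have a1 : (k : ℝ) ≤ (k : ℝ) ^ 4 := le_self_pow₀ h3 (by norm_num)
      have a0 : (1 : ℝ) ≤ (k : ℝ) ^ 4 := one_le_pow₀ h3
      linarith
    have h5 : (n + 1) ^ 5 ≤ q (j + 1) := by exact_mod_cast h4
    omega

end Pool.Agent.H41.GM
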