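import Pool.Agent.H41.GM.Stm

/-! # Project GM, module ORD -/

set_option autoImplicit false

namespace Pool.Agent.H41.GM

open Filter Topology

lemma logp (n : ℕ) : 0 < Real.log ((n : ℝ) + 2) :=
  Real.log_pos (by have : (0 : ℝ) ≤ n := Nat.cast_nonneg n; linarith)

lemma log_mono {a b : ℕ} (h : a ≤ b) : Real.log ((a : ℝ) + 2) ≤ Real.log ((b : ℝ) + 2) := by
  have : (a : ℝ) ≤ b := by exact_mod_cast h
  exact Real.log_le_log (by positivity) (by linarith)

lemma sc_mono {a b : ℕ} (h : a ≤ b) : sc a ≤ sc b :=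
  pow_le_pow_left₀ (logp a).le (log_mono h) 4

lemma sc_pos (n : ℕ) : 0 < sc n := pow_pos (logp n) 4

lemma log_le8 (n : ℕ) : sc n ≤ 4096 * √((n : ℝ) + 2) := by
  have h0 : (0 : ℝ) < (n : ℝ) + 2 := by positivity
  have h := Real.log_le_rpow_div h0.le (show (0 : ℝ) < 1 / 8 by norm_num)
  have h1 : Real.log ((n : ℝ) + 2) ≤ 8 * ((n : ℝ) + 2) ^ (1 / 8 : ℝ) := by
    calc Real.log ((n : ℝ) + 2) ≤ ((n : ℝ) + 2) ^ (1 / 8 : ℝ) / (1 / 8) := h
      _ = 8 * ((n : ℝ) + 2) ^ (1 / 8 : ℝ) := by ring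
  have h2 := pow_le_pow_left₀ (logp n).le h1 4
  have h3 : (8 * ((n : ℝ) + 2) ^ (1 / 8 : ℝ)) ^ 4 = 4096 * √((n : ℝ) + 2) := by
    have e1 : (((n : ℝ) + 2) ^ (1 / 8 : ℝ)) ^ 4 = √((n : ℝ) + 2) := by
      rw [← Real.rpow_natCast (((n : ℝ) + 2) ^ (1 / 8 : ℝ)) 4, ← Real.rpow_mul h0.le,
        Real.sqrt_eq_rpow]
      norm_num
    rw [mul_pow, e1]
    norm_num
  rw [h3] at h2
  exact h2

theorem ord : S_ORD := by
  intro x μ q hx hμ hS hq
  set S : ℕ → ℝ := fun n => ∑ i ∈ Finset.range n, x i with hSdef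
  have hS0 : ∀ n, 0 ≤ S n := fun n => Finset.sum_nonneg fun i _ => hx i
  have hSs : ∀ n, S (n + 1) = S n + x n := fun n => Finset.sum_range_succ _ _
  have hmono : StrictMono q := strictMono_nat_of_lt_succ fun j => by rw [hq j]; omega
  have hqj : ∀ j, j ≤ q j := hmono.id_le
  have hqR : ∀ j, (q (j + 1) : ℝ) = q j + 1 + (⌊x j * sc (q j)⌋₊ : ℝ) := fun j => by
    rw [hq j]; push_cast; ring
  -- upper bound
  have hup : ∀ j, (q j : ℝ) ≤ q 0 + j + sc (q j) * S j := by
    intro j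
    induction j with
    | zero => simp [S]
    | succ j ih =>
      have h1 : sc (q j) ≤ sc (q (j + 1)) := sc_mono (hmono.monotone (Nat.le_succ j))
      have h2 : (⌊x j * sc (q j)⌋₊ : ℝ) ≤ x j * sc (q j) :=
        Nat.floor_le (mul_nonneg (hx j) (sc_pos _).le)
      have h3 : sc (q j) * S j ≤ sc (q (j + 1)) * S j := mul_le_mul_of_nonneg_right h1 (hS0 j)
      have h4 : x j * sc (q j) ≤ sc (q (j + 1)) * x j := by
        rw [mul_comm]; exact mul_le_mul_of_nonneg_right h1 (hx j)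
      rw [hqR j, hSs j]
      push_cast
      nlinarith
  have hlo : ∀ i r, sc i * (S (i + r) - S i) ≤ q (i + r) := by
    intro i r
    induction r with
    | zero => simp
    | succ r ih =>
      have h1 : sc i ≤ sc (q (i + r)) := sc_mono ((Nat.le_add_right i r).trans (hqj _))
      have h2 : x (i + r) * sc (q (i + r)) < (⌊x (i + r) * sc (q (i + r))⌋₊ : ℝ) + 1 :=
        Nat.lt_floor_add_one _
      have h4 : sc i * x (i + r) ≤ x (i + r) * sc (q (i + r)) := by
        rw [mul_comm]; exact mul_le_mul_of_nonneg_left h1 (hx _)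
      rw [← add_assoc, hqR (i + r), hSs (i + r)]
      nlinarith
  -- eventually
  have hS2 : ∀ᶠ j : ℕ in atTop, S j ≤ 2 * μ * j := by
    filter_upwards [hS.eventually_le_const (show μ < 2 * μ by linarith), eventually_gt_atTop 0]
      with j hj hj0
    have hj0' : (0 : ℝ) < j := by exact_mod_cast hj0
    rwa [div_le_iff₀ hj0'] at hj
  have hSl : ∀ᶠ i : ℕ in atTop, μ / 2 * i ≤ S (i + i) - S i := by
    have h2 : Tendsto (fun i : ℕ => i + i) atTop atTop :=
      tendsto_atTop_mono (fun i => Nat.le_add_left i i) tendsto_id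
    have h3 := hS.comp h2
    have h4 := (h3.const_mul 2).sub hS
    have h5 : μ / 2 < 2 * μ - μ := by linarith
    filter_upwards [h4.eventually_const_le h5, eventually_gt_atTop 0] with i hi hi0
    have hi0' : (0 : ℝ) < i := by exact_mod_cast hi0
    simp only [Function.comp] at hi
    have e : 2 * ((∑ k ∈ Finset.range (i + i), x k) / ((i + i : ℕ) : ℝ))
        - (∑ k ∈ Finset.range i, x k) / (i : ℝ) = (S (i + i) - S i) / i := by
      simp only [S]
      push_cast
      field_simp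
      ring
    rw [e, le_div_iff₀ hi0'] at hi
    exact hi
  -- constants
  have hs0 : 0 < sc 0 := sc_pos 0
  set A : ℝ := ((q 0 : ℝ) + 1) / sc 0 + 2 * μ with hA
  have hApos : 0 < A := by positivity
  set A' : ℝ := 4096 * A + 2 with hA'
  have hA'1 : 1 < A' := by linarith
  set B : ℝ := 2 * Real.log A' / Real.log 2 + 2 with hB
  have hl2 : 0 < Real.log 2 := Real.log_pos (by norm_num)
  have hlA : 0 < Real.log A' := Real.log_pos hA'1
  have hBpos : 0 < B := by positivity
  refine ⟨max (128 / μ) (A * B ^ 4), lt_max_of_lt_left (by positivity), ?_⟩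
  have hdiv : Tendsto (fun j : ℕ => j / 2) atTop atTop := Nat.tendsto_div_const_atTop (by norm_num)
  filter_upwards [hS2, hdiv.eventually hSl, eventually_ge_atTop 2] with j h1 h2 hj2
  have hj2R : (2 : ℝ) ≤ j := by exact_mod_cast hj2
  have hscj := sc_pos j
  constructor
  · -- lower bound for q
    have h3 := hlo (j / 2) (j / 2)
    have h4 : (q (j / 2 + j / 2) : ℝ) ≤ q j := by
      exact_mod_cast hmono.monotone (by omega)
    have h5 : (j : ℝ) / 4 ≤ ((j / 2 : ℕ) : ℝ) := by
      have : j ≤ 4 * (j / 2) := by omega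
      have h : (j : ℝ) ≤ 4 * ((j / 2 : ℕ) : ℝ) := by exact_mod_cast this
      linarith
    have h6 : Real.log ((j : ℝ) + 2) ≤ 2 * Real.log (((j / 2 : ℕ) : ℝ) + 2) := by
      rw [← Real.log_rpow (by positivity)]
      apply Real.log_le_log (by positivity)
      have h7 : j + 2 ≤ (j / 2 + 2) ^ 2 := by
        have : j ≤ 2 * (j / 2) + 1 := by omega
        nlinarith
      have h8 : ((j + 2 : ℕ) : ℝ) ≤ (((j / 2 + 2) ^ 2 : ℕ) : ℝ) := by exact_mod_cast h7
      rw [Real.rpow_two]
      push_cast at h8 ⊢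
      linarith
    have h7 : sc j ≤ 16 * sc (j / 2) := by
      have h := pow_le_pow_left₀ (logp j).le h6 4
      have e : (2 * Real.log (((j / 2 : ℕ) : ℝ) + 2)) ^ 4 = 16 * sc (j / 2) := by
        rw [mul_pow]; unfold sc; norm_num
      rw [e] at h
      exact h
    have h8 : sc (j / 2) * (μ / 2 * ((j / 2 : ℕ) : ℝ)) ≤ q j :=
      (mul_le_mul_of_nonneg_left h2 (sc_pos _).le).trans (h3.trans h4)
    have h9 : (j : ℝ) * sc j ≤ 128 / μ * q j := by
      have a1 : sc j / 16 ≤ sc (j / 2) := by linarith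
      have a2 : sc j / 16 * (μ / 2 * ((j : ℝ) / 4)) ≤ sc (j / 2) * (μ / 2 * ((j / 2 : ℕ) : ℝ)) := by
        have := (sc_pos (j / 2)).le
        gcongr
      have a3 : sc j / 16 * (μ / 2 * ((j : ℝ) / 4)) ≤ q j := a2.trans h8
      rw [div_mul_eq_mul_div, le_div_iff₀ hμ]
      linarith
    exact h9.trans (mul_le_mul_of_nonneg_right (le_max_left _ _) (Nat.cast_nonneg _))
  · have h3 : (q j : ℝ) ≤ A * (j * sc (q j)) := by
      have a1 : (q 0 : ℝ) + j ≤ ((q 0 : ℝ) + 1) * j := by
        have : (0 : ℝ) ≤ q 0 := Nat.cast_nonneg _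
        nlinarith
      have a2 : ((q 0 : ℝ) + 1) * j ≤ ((q 0 : ℝ) + 1) / sc 0 * (j * sc (q j)) := by
        have a3 : sc 0 ≤ sc (q j) := sc_mono (Nat.zero_le _)
        calc ((q 0 : ℝ) + 1) * j = ((q 0 : ℝ) + 1) / sc 0 * (j * sc 0) := by field_simp
          _ ≤ ((q 0 : ℝ) + 1) / sc 0 * (j * sc (q j)) := by gcongr
      have a4 : sc (q j) * S j ≤ 2 * μ * (j * sc (q j)) := by
        have := mul_le_mul_of_nonneg_left h1 (sc_pos (q j)).le
        linarith
      have := hup j
      rw [hA]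
      linarith [add_mul (((q 0 : ℝ) + 1) / sc 0) (2 * μ) (j * sc (q j))]
    have hr1 : 1 ≤ √((q j : ℝ) + 2) := by
      rw [Real.one_le_sqrt]
      have : (0 : ℝ) ≤ q j := Nat.cast_nonneg _
      linarith
    have h4 : (q j : ℝ) + 2 ≤ A' * j * √((q j : ℝ) + 2) := by
      have a1 := log_le8 (q j)
      have a2 : A * (j * sc (q j)) ≤ A * (j * (4096 * √((q j : ℝ) + 2))) := by gcongr
      have a3 : (2 : ℝ) ≤ 2 * (j * √((q j : ℝ) + 2)) := by
        have : (1 : ℝ) ≤ j * √((q j : ℝ) + 2) := by nlinarith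
        linarith
      calc (q j : ℝ) + 2 ≤ A * (j * (4096 * √((q j : ℝ) + 2))) + 2 * (j * √((q j : ℝ) + 2)) := by
            linarith
        _ = A' * j * √((q j : ℝ) + 2) := by rw [hA']; ring
    have hsq : √((q j : ℝ) + 2) * √((q j : ℝ) + 2) = (q j : ℝ) + 2 :=
      Real.mul_self_sqrt (by positivity)
    have h5 : √((q j : ℝ) + 2) ≤ A' * j := by
      have a1 : √((q j : ℝ) + 2) * √((q j : ℝ) + 2) ≤ A' * j * √((q j : ℝ) + 2) := by
        rw [hsq]; exact h4
      exact le_of_mul_le_mul_right a1 (by linarith)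
    have h6 : Real.log ((q j : ℝ) + 2) ≤ B * Real.log ((j : ℝ) + 2) := by
      have a1 : (q j : ℝ) + 2 ≤ (A' * j) ^ 2 := by
        rw [← hsq, ← sq]
        exact pow_le_pow_left₀ (Real.sqrt_nonneg _) h5 2
      have a2 : Real.log ((q j : ℝ) + 2) ≤ 2 * (Real.log A' + Real.log j) := by
        calc Real.log ((q j : ℝ) + 2) ≤ Real.log ((A' * j) ^ 2) :=
              Real.log_le_log (by positivity) a1
          _ = 2 * (Real.log A' + Real.log j) := by
              rw [Real.log_pow, Real.log_mul (by linarith) (by linarith)]; norm_num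
      have a3 : Real.log (j : ℝ) ≤ Real.log ((j : ℝ) + 2) :=
        Real.log_le_log (by linarith) (by linarith)
      have a4 : Real.log 2 ≤ Real.log ((j : ℝ) + 2) := Real.log_le_log (by norm_num) (by linarith)
      have a5 : Real.log A' ≤ Real.log A' / Real.log 2 * Real.log ((j : ℝ) + 2) := by
        calc Real.log A' = Real.log A' / Real.log 2 * Real.log 2 := by field_simp
          _ ≤ Real.log A' / Real.log 2 * Real.log ((j : ℝ) + 2) := by gcongr
      have e : B * Real.log ((j : ℝ) + 2) = 2 * (Real.log A' / Real.log 2 * Real.log ((j : ℝ) + 2))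
          + 2 * Real.log ((j : ℝ) + 2) := by rw [hB]; ring
      rw [e]
      linarith
    have h7 : sc (q j) ≤ B ^ 4 * sc j := by
      have h := pow_le_pow_left₀ (logp (q j)).le h6 4
      rwa [mul_pow] at h
    have h8 : (q j : ℝ) ≤ A * B ^ 4 * (j * sc j) := by
      calc (q j : ℝ) ≤ A * (j * sc (q j)) := h3
        _ ≤ A * (j * (B ^ 4 * sc j)) := by gcongr
        _ = A * B ^ 4 * (j * sc j) := by ring
    exact h8.trans (mul_le_mul_of_nonneg_right (le_max_right _ _) (by positivity))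

end Pool.Agent.H41.GM
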