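import Mathlib

/-!
# Project GM (helper41, MP_c03ca8_nt): Golubew's statement and the moments of the gaps of the quadruplets

`q 0 < q 1 < ...` is a random sequence (the first elements of the quadruplets) with `q j ≍ j log ^ 4 j`, and
given the past up to `q j` the gap `q (j + 1) - q j` is larger than `h` with conditional probability
`≍ T(h / log ^ 4 q j)`. Then almost surely every interval `(n ^ 5, (n + 1) ^ 5)`, `n` large, contains a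
quadruplet if and only if `∑ T((j / log j) ^ (4 / 5)) < ∞`; for renewal models (`X i` i.i.d.,
`q (j + 1) = q j + 1 + ⌊X j log ^ 4 q j⌋`): if and only if `E [X ^ (5 / 4) log X] < ∞`.
-/

set_option autoImplicit false

namespace Pool.Agent.H41.GM

open MeasureTheory Filter Topology ProbabilityTheory

/-- the scale `log ^ 4 (n + 2)` of the gaps between quadruplets at `n` -/
noncomputable def sc (n : ℕ) : ℝ := Real.log ((n : ℝ) + 2) ^ 4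

/-- `(j / log (j + 2)) ^ (4 / 5)` -/
noncomputable def aa (j : ℕ) : ℝ := ((j : ℝ) / Real.log ((j : ℝ) + 2)) ^ (4 / 5 : ℝ)

/-- `q j` is of the order `j log ^ 4 j` -/
def Order (q : ℕ → ℕ) : Prop :=
  ∃ C : ℝ, 0 < C ∧ ∀ᶠ j : ℕ in atTop, (j : ℝ) * sc j ≤ C * q j ∧ (q j : ℝ) ≤ C * (j * sc j)

/-- Golubew's statement for large `n`: there is a quadruplet `m, m + 2, m + 6, m + 8` with
`n ^ 5 < m`, `m + 8 < (n + 1) ^ 5`, where the first elements of the quadruplets are the `q j` -/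
def Golubew (q : ℕ → ℕ) : Prop :=
  ∀ᶠ n : ℕ in atTop, ∃ j, n ^ 5 < q j ∧ q j + 8 < (n + 1) ^ 5

/-- for infinitely many `n` no `q j` is strictly between `n ^ 5` and `(n + 1) ^ 5` -/
def Empties (q : ℕ → ℕ) : Prop :=
  ∃ᶠ n : ℕ in atTop, ∀ j, ¬ (n ^ 5 < q j ∧ q j < (n + 1) ^ 5)

/-- The random sequence `q` is strictly increasing, adapted to the filtration `ℱ`, almost surely of the
order `j log ^ 4 j`, and given the past the gap after `q j = m` is larger than `h` with conditional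
probability between `c₁ T(h / log ^ 4 (m + 2))` and `c₂ T(h / log ^ 4 (m + 2))` (`m` large). -/
structure Gaps {Ω : Type*} [mΩ : MeasurableSpace Ω] (P : Measure Ω) (ℱ : Filtration ℕ mΩ)
    (q : ℕ → Ω → ℕ) (T : ℝ → ℝ) : Prop where
  meas : ∀ j, Measurable[ℱ j] (q j)
  strict : ∀ ω, StrictMono fun j => q j ω
  order : ∀ᵐ ω ∂P, Order fun j => q j ω
  tail : ∃ c₁ c₂ : ℝ, 0 < c₁ ∧ 0 < c₂ ∧ ∃ M : ℕ, ∀ j m h : ℕ, M ≤ m → ∀ B : Set Ω,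
    MeasurableSet[ℱ j] B → B ⊆ {ω | q j ω = m} →
      c₁ * T (h / sc m) * P.real B ≤ P.real (B ∩ {ω | m + h < q (j + 1) ω}) ∧
      P.real (B ∩ {ω | m + h < q (j + 1) ω}) ≤ c₂ * T (h / sc m) * P.real B

/-- DET (module DET, deterministic).

Proof. (1) `n` large, `j` the largest index with `q j ≤ n ^ 5` (`j → ∞` as `n → ∞`): then
`n ^ 5 < q (j + 1) ≤ q j + 4 (q j) ^ (4 / 5) ≤ n ^ 5 + 4 n ^ 4` and `n ^ 5 + 4 n ^ 4 + 8 < (n + 1) ^ 5`.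
(2) for such a `j` let `n` be the least number with `q j ≤ n ^ 5`; `k = n - 1`, `k ^ 5 < q j`:
`q (j + 1) > k ^ 5 + 250 k ^ 4 ≥ (k + 2) ^ 5 = (n + 1) ^ 5`. -/
def S_DET : Prop :=
  ∀ q : ℕ → ℕ, StrictMono q →
    ((∀ᶠ j : ℕ in atTop, (q (j + 1) : ℝ) - q j ≤ 4 * (q j : ℝ) ^ (4 / 5 : ℝ)) → Golubew q) ∧
    ((∃ᶠ j : ℕ in atTop, 250 * (q j : ℝ) ^ (4 / 5 : ℝ) < (q (j + 1) : ℝ) - q j) → Empties q)

/-- SUM (module SUM, series).

Proof. `aa` is monotone. `c ≥ 1`: `T (c aa j) ≤ T (aa j)`. `c < 1`: there is a `K` with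
`aa i ≤ c * aa (K i)` for all large `i` (`log (K i + 2) ≤ 2 log (i + 2)` for `i ≥ K`, `K = ⌈2 c ^ (- 5 / 4)⌉`);
so `T (c aa j) ≤ T (aa ⌊j / K⌋)` for large `j`, and `∑ j, T (aa ⌊j / K⌋) = K ∑ i, T (aa i)`. -/
def S_SUM : Prop :=
  ∀ T : ℝ → ℝ, Antitone T → (∀ t, 0 ≤ T t) → ∀ c : ℝ, 0 < c →
    (Summable (fun j : ℕ => T (c * aa j)) ↔ Summable fun j : ℕ => T (aa j))

/-- MOM (module MOM, moments).

Proof. `y = Y ^ (5 / 4)`; `aa j ≤ Y` iff `j / log (j + 2) ≤ y`. (a) If `aa j ≤ Y` then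
`j ≤ C y log (2 + y) + C`, so `∑ j, 1{aa j ≤ Y} ≤ C' (Z + 1)`, `Z = Y ^ (5 / 4) log (2 + Y)`.
(b) All `j ≤ y log (y + 2)` have `aa j ≤ Y` (`j ≤ y`: `j / log (j + 2) ≤ j`, as `log 3 ≥ 1`; `j > y`:
`log (j + 2) ≥ log (y + 2)`), so `Z ≤ C ∑ j, 1{aa j ≤ Y}`. Integrate the sums (`lintegral_tsum`). -/
def S_MOM : Prop :=
  ∀ (Ω : Type) [MeasurableSpace Ω] (P : Measure Ω) [IsProbabilityMeasure P] (Y : Ω → ℝ),
    Measurable Y → (∀ ω, 0 ≤ Y ω) →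
    (Integrable (fun ω => Y ω ^ (5 / 4 : ℝ) * Real.log (2 + Y ω)) P ↔
      Summable fun j : ℕ => P.real {ω | aa j ≤ Y ω})

/-- ORD (module ORD, deterministic).

Proof. `S j = ∑ i < j, x i ~ μ j`, `μ > 0`; `q j ≥ j`, `q` increasing. Upper:
`q j ≤ q 0 + j + sc (q j) S j ≤ C j sc (q j)`, `sc (q j) ≤ C (q j + 2) ^ (1 / 2)`, so `q j + 2 ≤ C j ^ 2`,
`sc (q j) ≤ C sc j`, `q j ≤ C j sc j`. Lower, `i = ⌊j / 2⌋`:
`q j ≥ ∑ i ≤ k < 2 i, x k sc (q k) ≥ sc i (S (2 i) - S i) ≥ sc i (μ / 2) i ≥ c j sc j`. -/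
def S_ORD : Prop :=
  ∀ (x : ℕ → ℝ) (μ : ℝ) (q : ℕ → ℕ), (∀ i, 0 ≤ x i) → 0 < μ →
    Tendsto (fun n : ℕ => (∑ i ∈ Finset.range n, x i) / n) atTop (𝓝 μ) →
    (∀ j, q (j + 1) = q j + 1 + ⌊x j * sc (q j)⌋₊) → Order q

/-- REN (module REN, renewal models, uses `S_ORD` and the strong law of large numbers
`ProbabilityTheory.strong_law_ae_real`).

Proof. `ℱ j = σ(X 0, ..., X (j - 1))` (`⨆ i < j, comap (X i)`), `q j` is a function of `X 0, ..., X (j - 1)`.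
`m + h < q (j + 1)` on `B ⊆ {q j = m}` iff `h ≤ ⌊X j sc m⌋₊` iff `h / sc m ≤ X j`, and `X j` is independent of
`ℱ j ∋ B`, identically distributed as `X 0`: `c₁ = c₂ = 1`. -/
def S_REN : Prop :=
  ∀ (Ω : Type) [mΩ : MeasurableSpace Ω] (P : Measure Ω) [IsProbabilityMeasure P] (X : ℕ → Ω → ℝ)
    (q : ℕ → Ω → ℕ), (∀ i, Measurable (X i)) → (∀ i ω, 0 ≤ X i ω) → iIndepFun X P →
    (∀ i, IdentDistrib (X i) (X 0) P P) → Integrable (X 0) P → 0 < ∫ ω, X 0 ω ∂P →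
    (∃ m₀ : ℕ, ∀ ω, q 0 ω = m₀) →
    (∀ j ω, q (j + 1) ω = q j ω + 1 + ⌊X j ω * sc (q j ω)⌋₊) →
    ∃ ℱ : Filtration ℕ mΩ, Gaps P ℱ q (fun t => P.real {ω | t ≤ X 0 ω})

/-- UPP (module UPP, uses `S_SUM`): the convergent case.

Proof. Fix `C ∈ ℕ`, `G j = {j sc j ≤ C q j, q j ≤ C j sc j}` (in `ℱ j`),
`h j = ⌊4 (j sc j / C) ^ (4 / 5)⌋₊`. On `G j`, `gap > 4 q j ^ (4 / 5)` implies `q j + h j < q (j + 1)`; summing
over the values `m ≤ C j sc j` of `q j` (`sc m ≤ K sc j`, so `h j / sc m ≥ c aa j` for large `j`):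
`P (G j ∩ {q j + h j < q (j + 1)}) ≤ c₂ T (c aa j)`. Borel–Cantelli for each `C`; `order`. -/
def S_UPP : Prop :=
  ∀ (Ω : Type) [mΩ : MeasurableSpace Ω] (P : Measure Ω) [IsProbabilityMeasure P]
    (ℱ : Filtration ℕ mΩ) (q : ℕ → Ω → ℕ) (T : ℝ → ℝ), Antitone T → (∀ t, 0 ≤ T t) →
    Gaps P ℱ q T → Summable (fun j : ℕ => T (aa j)) →
    ∀ᵐ ω ∂P, ∀ᶠ j : ℕ in atTop, (q (j + 1) ω : ℝ) - q j ω ≤ 4 * (q j ω : ℝ) ^ (4 / 5 : ℝ)

/-- LOW (module LOW, uses `S_SUM`): the divergent case.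

Proof. Fix `C`, `G j` as in `S_UPP`, `h j = ⌈250 (C j sc j) ^ (4 / 5)⌉₊`. For `J₀ ≤ J` (`J₀` large) let
`N J = ⋂ J₀ ≤ j < J, (G j ∩ {q (j + 1) ≤ q j + h j}) ∈ ℱ J`. Summing over the values `m ≥ j sc j / C` of `q j`
(`sc m ≥ c sc j`, so `h j / sc m ≤ C' aa j`): `P (N (j + 1)) ≤ (1 - c₁ T (C' aa j)) P (N j)`; the product
tends to `0`. So almost surely for every `C`: infinitely many `j` are not in `G j ∩ {q (j + 1) ≤ q j + h j}`;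
`order`. -/
def S_LOW : Prop :=
  ∀ (Ω : Type) [mΩ : MeasurableSpace Ω] (P : Measure Ω) [IsProbabilityMeasure P]
    (ℱ : Filtration ℕ mΩ) (q : ℕ → Ω → ℕ) (T : ℝ → ℝ), Antitone T → (∀ t, 0 ≤ T t) →
    Gaps P ℱ q T → ¬ Summable (fun j : ℕ => T (aa j)) →
    ∀ᵐ ω ∂P, ∃ᶠ j : ℕ in atTop, 250 * (q j ω : ℝ) ^ (4 / 5 : ℝ) < (q (j + 1) ω : ℝ) - q j ω

end Pool.Agent.H41.GM
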